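import Pool.Agent.H80.JD.Walk

/-!
# Module PTH2 of the board jd_modules: signs with small partial sums give a cluster of diameter `n`
-/

set_option autoImplicit false

namespace Pool.Agent.H85.JD

open Finset Filter Topology Pool.Agent.H80.JD

/-- the first `t` signs are reversed -/
def Xt {n : ℕ} (x : Fin n → Bool) (t : ℕ) : Fin n → Bool :=
  fun i => if (i : ℕ) < t then !(x i) else x i

lemma ip_Xt {n : ℕ} (g x : Fin n → Bool) (t : ℕ) :
    ip g (Xt x t) = (∑ i ∈ univ.filter (fun i : Fin n => (i : ℕ) < n), sg (x i) * sg (g i)) -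
      2 * ∑ i ∈ univ.filter (fun i : Fin n => (i : ℕ) < t), sg (x i) * sg (g i) := by
  have h1 : (univ.filter (fun i : Fin n => (i : ℕ) < n)) = univ := by
    rw [Finset.filter_eq_self]
    exact fun i _ => i.2
  rw [h1, Finset.sum_filter, Finset.mul_sum, ← Finset.sum_sub_distrib]
  unfold ip
  refine Finset.sum_congr rfl fun i _ => ?_
  unfold Xt
  by_cases h : (i : ℕ) < t
  · rw [if_pos h, if_pos h, sg_not]
    ring
  · rw [if_neg h, if_neg h]
    ring

lemma dist_step {n : ℕ} (x : Fin n → Bool) (t : ℕ) (ht : t < n) :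
    hammingDist (Xt x t) (Xt x (t + 1)) = 1 := by
  unfold hammingDist
  have h1 : (univ.filter (fun i => Xt x t i ≠ Xt x (t + 1) i)) = {(⟨t, ht⟩ : Fin n)} := by
    ext i
    simp only [Finset.mem_filter, Finset.mem_univ, true_and, Finset.mem_singleton]
    unfold Xt
    constructor
    · intro h
      by_contra hne
      have hne' : (i : ℕ) ≠ t := fun h' => hne (Fin.ext h')
      apply h
      by_cases h3 : (i : ℕ) < t
      · rw [if_pos h3, if_pos (by omega)]
      · rw [if_neg h3, if_neg (by omega)]
    · rintro rfl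
      simp
  rw [h1, Finset.card_singleton]

lemma dist_all {n : ℕ} (x : Fin n → Bool) : hammingDist (Xt x 0) (Xt x n) = n := by
  unfold hammingDist
  have h1 : (univ.filter (fun i => Xt x 0 i ≠ Xt x n i)) = univ := by
    rw [Finset.filter_eq_self]
    intro i _
    unfold Xt
    rw [if_neg (Nat.not_lt_zero _), if_pos i.2]
    cases x i <;> simp
  rw [h1, Finset.card_univ, Fintype.card_fin]

theorem pth2 : T_PTH2 := by
  intro m n κ B G x hB hS
  have hsol : ∀ t : ℕ, t ≤ n → SBP κ G (Xt x t) := by
    intro t ht j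
    rw [ip_Xt]
    have h1 := hS n le_rfl j
    have h2 := hS t ht j
    push_cast at h1 h2 ⊢
    rw [abs_lt] at h1 h2
    rw [abs_le]
    constructor
    · linarith [h1.1, h2.2]
    · linarith [h1.2, h2.1]
  have hsame : ∀ t : ℕ, t ≤ n → Same (SBP κ G) (Xt x 0) (Xt x t) := by
    intro t
    induction t with
    | zero => intro _; exact same_refl (hsol 0 (Nat.zero_le _))
    | succ t ih =>
      intro ht
      exact (ih (by omega)).step ⟨hsol t (by omega), hsol (t + 1) ht, dist_step x t (by omega)⟩
  refine le_antisymm (diam_le_n _) ?_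
  have h1 := le_diam (hsame n le_rfl)
  rw [dist_all] at h1
  exact h1

end Pool.Agent.H85.JD
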